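import Mathlib
import Pool.Agent.Tri.Label
import Pool.Agent.Tri.Incid

set_option autoImplicit false

namespace Pool.Agent.Results.MP_72d9c6_nt.RationalIncidence

/-- The incidence graph of a finite set `P` of points `(px, py)` and a finite set `L` of
non-vertical lines `y = s x + t` of the rational plane is Diophantine. -/
theorem result (P L : Type) [Fintype P] [Fintype L] (px py : P → ℚ) (s t : L → ℚ)
    (hP : ∀ p q : P, px p = px q → py p = py q → p = q)
    (hL : ∀ l m : L, s l = s m → t l = t m → l = m) :
    ∃ (f : P → ℕ) (g : L → ℕ), Function.Injective f ∧ Function.Injective g ∧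
      (∀ p, 0 < f p) ∧ (∀ l, 0 < g l) ∧ (∀ p l, f p ≠ g l) ∧
      (∀ p l, IsSquare (f p * g l + 1) ↔ py p = s l * px p + t l) ∧
      (∀ p q, p ≠ q → ¬ IsSquare (f p * f q + 1)) ∧
      (∀ l m, l ≠ m → ¬ IsSquare (g l * g m + 1)) := by
  classical
  let G : SimpleGraph (P ⊕ L) :=
    { Adj := fun u v => match u, v with
        | Sum.inl p, Sum.inr l => py p = s l * px p + t l
        | Sum.inr l, Sum.inl p => py p = s l * px p + t l
        | _, _ => False
      symm := ⟨by
        rintro (p | l) (q | m) h
        · exact h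
        · exact h
        · exact h
        · exact h⟩
      loopless := ⟨by rintro (p | l) h <;> exact h⟩ }
  obtain ⟨v, hv⟩ := Tri.conf_incid (G := G) (K := Finset.univ) (fun u => u.isLeft = true)
    (fun u => Sum.elim px s u) (fun u => Sum.elim py t u)
    (by
      rintro (p | l) _ (q | m) _ h1 h2 h3
      · exact congrArg Sum.inl (hP p q h2 h3)
      · simp at h1
      · simp at h1
      · exact congrArg Sum.inr (hL l m h2 h3))
    (by
      rintro (p | l) _ (q | m) _
      · simp [G]
      · simp [G]
      · simp [G]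
      · simp [G])
  obtain ⟨f, hf⟩ := hv.extend (Helper7.Dio.State.empty G) (by simp) (by simp)
  rw [Finset.union_empty] at hf
  obtain ⟨g, hg1, hg2, hg3⟩ := hf.toNat
  refine ⟨fun p => g (Sum.inl p), fun l => g (Sum.inr l), ?_, ?_, fun p => hg2 _, fun l => hg2 _,
    ?_, ?_, ?_, ?_⟩
  · intro p q h
    exact Sum.inl.inj (hg1 h)
  · intro p q h
    exact Sum.inr.inj (hg1 h)
  · intro p l h
    exact absurd (hg1 h) (by simp)
  · intro p l
    exact (hg3 (Sum.inl p) (Sum.inr l) (by simp)).symm
  · intro p q hpq h
    exact (hg3 (Sum.inl p) (Sum.inl q) (by simpa using hpq)).2 h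
  · intro l m hlm h
    exact (hg3 (Sum.inr l) (Sum.inr m) (by simpa using hlm)).2 h

end Pool.Agent.Results.MP_72d9c6_nt.RationalIncidence
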