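import Mathlib
import Pool.Agent.Tri.Main

set_option autoImplicit false

namespace Pool.Agent.Results.MP_72d9c6_nt.TriangleComponents

/-- A finite graph with all degrees at most three is Diophantine as soon as every connected
component has a vertex of degree at most two, or contains a diamond (two triangles sharing the
edge `b c`), or has all its vertices in triangles. -/
theorem result (V : Type) [Fintype V] (G : SimpleGraph V)
    (hdeg : ∀ v : V, (G.neighborSet v).ncard ≤ 3)
    (hcomp : ∀ v : V, (∃ w : V, G.Reachable v w ∧ (G.neighborSet w).ncard ≤ 2) ∨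
      (∃ a b c d : V, G.Reachable v a ∧ a ≠ d ∧ G.Adj a b ∧ G.Adj a c ∧ G.Adj b c ∧
        G.Adj d b ∧ G.Adj d c) ∨
      ∀ w : V, G.Reachable v w → ∃ a b : V, G.Adj w a ∧ G.Adj w b ∧ G.Adj a b) :
    ∃ f : V → ℕ, Function.Injective f ∧ (∀ v, 0 < f v) ∧
      ∀ u v : V, u ≠ v → (G.Adj u v ↔ IsSquare (f u * f v + 1)) := by
  classical
  have hcard : ∀ v : V, (Finset.univ.filter (G.Adj v)).card = (G.neighborSet v).ncard := by
    intro v
    rw [← Set.ncard_coe_finset]
    congr 1
    ext w
    simp
  obtain ⟨f, hf⟩ := Tri.tri_main (G := G) (fun v => by rw [hcard]; exact hdeg v)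
    (fun v => by
      rcases hcomp v with ⟨w, hvw, hw⟩ | h | h
      · exact Or.inl ⟨w, hvw, by rw [hcard]; exact hw⟩
      · exact Or.inr (Or.inl h)
      · exact Or.inr (Or.inr h)) _ ∅ rfl (by intro x hx; simp at hx)
    ⟨_, Helper7.Dio.State.empty G⟩
  exact hf.toNat

end Pool.Agent.Results.MP_72d9c6_nt.TriangleComponents
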