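import Mathlib
import Pool.Agent.Helper7.DioGraph

set_option autoImplicit false

namespace Pool.Agent.Results.MP_72d9c6_nt.TwoDegenerate

/-- Every finite 2-degenerate graph is Diophantine, whatever its maximum degree. -/
theorem result (V : Type) [Fintype V] (G : SimpleGraph V)
    (h2 : ∀ T : Set V, T.Nonempty → ∃ v ∈ T, (G.neighborSet v ∩ T).ncard ≤ 2) :
    ∃ f : V → ℕ, Function.Injective f ∧ (∀ v, 0 < f v) ∧
      ∀ u v : V, u ≠ v → (G.Adj u v ↔ IsSquare (f u * f v + 1)) := by
  classical
  obtain ⟨f, hf⟩ := Helper7.Dio.build (G := G) (Helper7.Dio.State.empty G) _ Finset.univ rfl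
    (by simp) (by simp) (by
      intro T _ hne
      obtain ⟨v, hv, hv2⟩ := h2 (T : Set V) (by exact_mod_cast hne)
      refine ⟨v, by exact_mod_cast hv, ?_⟩
      rw [← Set.ncard_coe_finset]
      refine le_trans (le_of_eq ?_) hv2
      congr 1
      ext w
      simp [and_comm])
  have hf' := hf.forget
  rw [Finset.union_empty] at hf'
  exact hf'.toNat

end Pool.Agent.Results.MP_72d9c6_nt.TwoDegenerate
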